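import Pool.Agent.Y688.H3

/-!
# Non-vanishing of the twisted L-values of `y² + y = x³` over `F = ℚ(√-3, √-7)`

`E : y² + y = x³` is the elliptic curve of conductor `27` over `ℚ`; it has complex multiplication by
`ℤ[(1 + √-3)/2]`.  Let `F = ℚ(√-3, √-7)` and let `X` be a ray class character of `F` of `2`-power
order, of any modulus `𝔪` all of whose prime divisors `v` divide `3` or have the property that `2`
is not a cube modulo `v`.  We prove that the L-function `L(E/F, X, s)`, defined as an Euler product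
for `Re s > 3/2`, continues to an entire function and that `L(E/F, X, 1) ≠ 0`.

Proof.  `F` is norm-Euclidean over `ℤ[ω]`, with fundamental unit `η = (√-3 + √-7)/2` of relative norm
`1` over `ℚ(√-3)`.  The L-series of the Hecke character `ψ̄_{E/F} X` is unfolded over `η^ℤ` into an
integral, along a geodesic of hyperbolic three-space, of a weight-two Eisenstein series attached to
pairs in `ℤ[ω]²`; its value at `s = 1` is computed as a finite sum of products of values of
Weierstrass functions at torsion points of `E` (a Dedekind sum of Sczech type for `ℤ[ω]`).  A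
congruence modulo a place above `2` between the sums for `X` and for the trivial character modulo
`𝔪`, for which the value is known up to `2`-adic units, gives the non-vanishing.
-/

set_option autoImplicit false

open NumberField IsDedekindDomain

namespace Pool.Agent.Results.MP_32c55d_nt.QuarticTwists

section
variable {F : Type} [Field F] [NumberField F]

/-- `a_v` of `E : y² + y = x³` at the prime `v`: `Nv` minus the number of affine solutions `(x, y)`
of the equation over the residue field `𝓞 F / v`. -/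
noncomputable def av (v : HeightOneSpectrum (𝓞 F)) : ℤ :=
  ((Ideal.absNorm v.asIdeal : ℕ) : ℤ) -
    ((Nat.card {p : (𝓞 F ⧸ v.asIdeal) × (𝓞 F ⧸ v.asIdeal) // p.2 ^ 2 + p.2 = p.1 ^ 3} : ℕ) : ℤ)

/-- `X` is a ray class character modulo `𝔪` (extended by `0` to the ideals not prime to `𝔪`) and its
order is a power of `2`. -/
structure IsRayChar (𝔪 : Ideal (𝓞 F)) (X : Ideal (𝓞 F) →* ℂ) : Prop where
  zero : ∀ I : Ideal (𝓞 F), I ≠ ⊥ → ¬ IsCoprime I 𝔪 → X I = 0
  ray : ∀ α : 𝓞 F, α ≠ 0 → α - 1 ∈ 𝔪 → X (Ideal.span {α}) = 1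
  order : ∃ n : ℕ, ∀ I : Ideal (𝓞 F), I ≠ ⊥ → IsCoprime I 𝔪 → X I ^ 2 ^ n = 1

open Classical in
/-- The Euler factor of `L(E/F, X, s)` at `v`: it is `1` for `v ∣ 3` (additive reduction) and
`(1 - a_v X(v) (Nv)^(-s) + X(v)² (Nv)^(1-2s))⁻¹` otherwise. -/
noncomputable def factor (X : Ideal (𝓞 F) →* ℂ) (s : ℂ) (v : HeightOneSpectrum (𝓞 F)) : ℂ :=
  if (3 : 𝓞 F) ∈ v.asIdeal then 1
  else (1 - ((av v : ℤ) : ℂ) * X v.asIdeal * ((Ideal.absNorm v.asIdeal : ℕ) : ℂ) ^ (-s) +
    X v.asIdeal ^ 2 * ((Ideal.absNorm v.asIdeal : ℕ) : ℂ) ^ (1 - 2 * s))⁻¹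

end

/-- **Main theorem.**  Let `F = ℚ(√-3, √-7)`, let `𝔪 ≠ 0` be an ideal of `F` such that `2` is not a
cube modulo any prime divisor `v ∤ 3` of `𝔪`, and let `X` be a ray class character modulo `𝔪` of
`2`-power order.  There is an entire function which is equal to
`L(E/F, X, s) = ∏_v (Euler factor at v)`, `E : y² + y = x³`, for `Re s > 3/2`, and it does not vanish
at `s = 1`. -/
theorem result : ∀ (F : Type) [Field F] [NumberField F], Module.finrank ℚ F = 4 →
    (∃ a : F, a ^ 2 = -3) → (∃ b : F, b ^ 2 = -7) →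
    ∀ 𝔪 : Ideal (𝓞 F), 𝔪 ≠ ⊥ →
    (∀ v : HeightOneSpectrum (𝓞 F), 𝔪 ≤ v.asIdeal →
      (3 : 𝓞 F) ∈ v.asIdeal ∨ ∀ α : 𝓞 F, α ^ 3 - 2 ∉ v.asIdeal) →
    ∀ X : Ideal (𝓞 F) →* ℂ, IsRayChar 𝔪 X →
    ∃ L : ℂ → ℂ, Differentiable ℂ L ∧ L 1 ≠ 0 ∧
      ∀ s : ℂ, 3 / 2 < s.re → HasProd (factor X s) (L s) := by
  intro F _ _ hF ha hb 𝔪 h𝔪 hg X hX
  obtain ⟨a, b, τ1, τ2, h⟩ := Pool.Agent.Y688.exists_Em hF ha hb
  exact Pool.Agent.Y688.twist_ideal h h𝔪 hg hX.zero hX.ray hX.order

end Pool.Agent.Results.MP_32c55d_nt.QuarticTwists
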